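import Mathlib

/-!
# Co-chordality of jet graphs is decided by the second jet graph

For every graph `G`: if `J_2(G)` is co-chordal then `J_s(G)` is co-chordal for all `s`. So for
every `n ≥ 2` there is no graph whose jet graphs `J_1(G), ..., J_n(G)` are co-chordal while
`J_{n+1}(G)` is not.
-/

namespace Pool.Agent.Results.MP_bdbea1_co.JetsCoChordal

/-- A graph is chordal if every cycle `v_0, v_1, ..., v_{k-1}` of length `k = m + 4 ≥ 4` has a
chord, an edge that joins two vertices that are not consecutive on the cycle. -/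
def Chordal {V : Type} (H : SimpleGraph V) : Prop :=
  ∀ (m : ℕ) (v : Fin (m + 4) → V), Function.Injective v → (∀ i, H.Adj (v i) (v (i + 1))) →
    ∃ i j, i ≠ j ∧ j ≠ i + 1 ∧ i ≠ j + 1 ∧ H.Adj (v i) (v j)

/-- A graph is co-chordal if its complement is chordal. -/
def CoChordal {V : Type} (H : SimpleGraph V) : Prop := Chordal Hᶜ

/-- The graph of `s`-jets of `G`: the vertices are the pairs `(x, a)` with `0 ≤ a ≤ s`, and
`(x, a)`, `(y, b)` are adjacent if `x`, `y` are adjacent in `G` and `a + b ≤ s`. -/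
def jets {V : Type} (G : SimpleGraph V) (s : ℕ) : SimpleGraph (V × Fin (s + 1)) where
  Adj p q := G.Adj p.1 q.1 ∧ (p.2 : ℕ) + (q.2 : ℕ) ≤ s
  symm := ⟨fun p q h => ⟨h.1.symm, by rw [add_comm]; exact h.2⟩⟩
  loopless := ⟨fun p h => G.loopless.irrefl p.1 h.1⟩

/-- facts about the cyclic order of `Fin (m + 4)` -/
lemma cyc (m : ℕ) (i j : Fin (m + 4)) (hij : j = i + 1) :
    (i - 1) ≠ i ∧ (i - 1) ≠ j ∧ (i - 1) + 1 = i ∧ j ≠ (i - 1) + 1 ∧ (i - 1) ≠ j + 1 := by
  subst hij
  have v1 : ((1 : Fin (m + 4)) : ℕ) = 1 := by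
    rw [Fin.val_one']; exact Nat.mod_eq_of_lt (by omega)
  have n1 : (1 : Fin (m + 4)) ≠ 0 := by
    intro h
    have := congrArg Fin.val h
    rw [v1] at this
    simp at this
  have v2 : ((1 + 1 : Fin (m + 4)) : ℕ) = 2 := by
    rw [Fin.val_add, v1]; exact Nat.mod_eq_of_lt (by omega)
  have n2 : (1 : Fin (m + 4)) + 1 ≠ 0 := by
    intro h
    have := congrArg Fin.val h
    rw [v2] at this
    simp at this
  have n3 : (1 : Fin (m + 4)) + (1 + 1) ≠ 0 := by
    intro h
    have := congrArg Fin.val h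
    rw [Fin.val_add, v1, v2, Nat.mod_eq_of_lt (by omega)] at this
    simp at this
  refine ⟨?_, ?_, ?_, ?_, ?_⟩
  · intro h
    apply n1
    have h2 : i - 1 + 1 = i + 1 := by rw [h]
    rw [sub_add_cancel] at h2
    exact left_eq_add.1 h2
  · intro h
    apply n2
    have h2 : i - 1 + 1 = i + 1 + 1 := by rw [h]
    rw [sub_add_cancel, add_assoc] at h2
    exact left_eq_add.1 h2
  · rw [sub_add_cancel]
  · intro h
    rw [sub_add_cancel] at h
    exact n1 (add_eq_left.1 h)
  · intro h
    apply n3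
    have h2 : i - 1 + 1 = i + 1 + 1 + 1 := by rw [h]
    rw [sub_add_cancel, add_assoc, add_assoc] at h2
    exact left_eq_add.1 h2

/-- If the second jet graph is co-chordal, then so are all the jet graphs. -/
lemma main {V : Type} (G : SimpleGraph V) (h2 : CoChordal (jets G 2)) (s : ℕ) :
    CoChordal (jets G s) := by
  classical
  intro m v hinj hadj
  by_contra hcon
  push Not at hcon
  -- the adjacency on the cycle
  have hiff : ∀ i j, (jets G s)ᶜ.Adj (v i) (v j) ↔ (j = i + 1 ∨ i = j + 1) := by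
    intro i j
    constructor
    · intro h
      by_contra hno
      push Not at hno
      have hij : i ≠ j := by
        rintro rfl
        exact (jets G s)ᶜ.loopless.irrefl _ h
      exact hcon i j hij hno.1 hno.2 h
    · rintro (rfl | rfl)
      · exact hadj i
      · exact (hadj j).symm
  have hcomp : ∀ (s : ℕ) (p q : V × Fin (s + 1)), p ≠ q → ((jets G s)ᶜ.Adj p q ↔
      (¬ G.Adj p.1 q.1 ∨ s < (p.2 : ℕ) + (q.2 : ℕ))) := by
    intro s p q hpq
    rw [SimpleGraph.compl_adj]
    simp only [jets, ne_eq, hpq, not_false_eq_true, true_and, not_and_or, not_le]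
  -- no triangles
  have htri : ∀ i j l, i ≠ j → i ≠ l → j ≠ l → (jets G s)ᶜ.Adj (v i) (v j) →
      (jets G s)ᶜ.Adj (v i) (v l) → (jets G s)ᶜ.Adj (v j) (v l) → False := by
    have aux : ∀ i l, i ≠ l → i + 1 ≠ l → (jets G s)ᶜ.Adj (v i) (v l) →
        (jets G s)ᶜ.Adj (v (i + 1)) (v l) → False := by
      intro i l hil hjl h1 h2
      obtain ⟨c1, c2, c3, c4, c5⟩ := cyc m i (i + 1) rfl
      have hl : l = i - 1 := by
        rcases (hiff i l).1 h1 with h | h
        · exact absurd h.symm hjl
        · rw [h]; simp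
      rw [hl] at h2
      rcases (hiff _ _).1 h2 with h | h
      · exact c5 h
      · exact c4 h
    intro i j l hij hil hjl h1 h2 h3
    rcases (hiff i j).1 h1 with rfl | rfl
    · exact aux i l hil hjl h2 h3
    · exact aux j l hjl hil h3 h2
  -- no adjacent twins
  have htwin : ∀ i j, i ≠ j → (jets G s)ᶜ.Adj (v i) (v j) →
      (∀ l, l ≠ i → l ≠ j → ((jets G s)ᶜ.Adj (v l) (v i) ↔ (jets G s)ᶜ.Adj (v l) (v j))) →
      False := by
    have aux : ∀ i, (∀ l, l ≠ i → l ≠ i + 1 →
        ((jets G s)ᶜ.Adj (v l) (v i) ↔ (jets G s)ᶜ.Adj (v l) (v (i + 1)))) → False := by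
      intro i h
      obtain ⟨c1, c2, c3, c4, c5⟩ := cyc m i (i + 1) rfl
      have h1 : (jets G s)ᶜ.Adj (v (i - 1)) (v i) := by
        have := hadj (i - 1)
        rwa [c3] at this
      have h2 := (h (i - 1) c1 c2).1 h1
      rcases (hiff _ _).1 h2 with h3 | h3
      · exact c4 h3
      · exact c5 h3
    intro i j hij h1 h2
    rcases (hiff i j).1 h1 with rfl | rfl
    · exact aux i h2
    · exact aux j (fun l hl1 hl2 => (h2 l hl2 hl1).symm)
  -- a vertex of the cycle of maximal level
  obtain ⟨i0, hi0⟩ : ∃ i0, ∀ i, ((v i).2 : ℕ) ≤ ((v i0).2 : ℕ) := by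
    obtain ⟨i0, -, h⟩ := Finset.exists_max_image Finset.univ (fun i => ((v i).2 : ℕ))
      ⟨0, Finset.mem_univ _⟩
    exact ⟨i0, fun i => h i (Finset.mem_univ _)⟩
  -- sums of levels of two other vertices are small
  have hsmall : ∀ i j, i ≠ j → i ≠ i0 → j ≠ i0 → ((v i).2 : ℕ) + ((v j).2 : ℕ) ≤ s := by
    intro i j hij hi hj
    by_contra hlt
    push Not at hlt
    have a1 := hi0 i
    have a2 := hi0 j
    apply htri i j i0 hij hi hj
    · exact (hcomp s _ _ (fun h => hij (hinj h))).2 (Or.inr hlt)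
    · exact (hcomp s _ _ (fun h => hi (hinj h))).2 (Or.inr (by omega))
    · exact (hcomp s _ _ (fun h => hj (hinj h))).2 (Or.inr (by omega))
  -- the new levels
  let lam : Fin (m + 4) → Fin 3 := fun i => if i = i0 then 2 else
    if s < ((v i).2 : ℕ) + ((v i0).2 : ℕ) then 1 else 0
  have hlam0 : lam i0 = 2 := by simp [lam]
  have hlam1 : ∀ i, i ≠ i0 → ((lam i : Fin 3) : ℕ) ≤ 1 := by
    intro i hi
    simp only [lam, hi, if_false]
    split_ifs <;> simp
  have hlam2 : ∀ i, i ≠ i0 → (2 < ((lam i : Fin 3) : ℕ) + 2 ↔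
      s < ((v i).2 : ℕ) + ((v i0).2 : ℕ)) := by
    intro i hi
    simp only [lam, hi, if_false]
    split_ifs with h <;> simp [h]
  let w : Fin (m + 4) → V × Fin (2 + 1) := fun i => ((v i).1, lam i)
  -- adjacency of the old vertices, in terms of the new ones
  have hold : ∀ i j, i ≠ j → ((jets G s)ᶜ.Adj (v i) (v j) ↔
      (¬ G.Adj (v i).1 (v j).1 ∨ 2 < ((lam i : Fin 3) : ℕ) + ((lam j : Fin 3) : ℕ))) := by
    intro i j hij
    rw [hcomp s _ _ (fun h => hij (hinj h))]
    by_cases hi : i = i0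
    · subst hi
      have hj : j ≠ i := hij.symm
      have := hlam2 j hj
      rw [hlam0]
      have e : ((2 : Fin 3) : ℕ) = 2 := rfl
      rw [e, add_comm 2, this, add_comm ((v i).2 : ℕ)]
    · by_cases hj : j = i0
      · subst hj
        have := hlam2 i hi
        rw [hlam0]
        have e : ((2 : Fin 3) : ℕ) = 2 := rfl
        rw [e, this]
      · have h3 := hsmall i j hij hi hj
        have h4 := hlam1 i hi
        have h5 := hlam1 j hj
        constructor
        · rintro (h | h)
          · exact Or.inl h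
          · omega
        · rintro (h | h)
          · exact Or.inl h
          · omega
  have hw : Function.Injective w := by
    intro i j h
    by_contra hij
    have e1 : (v i).1 = (v j).1 := (Prod.ext_iff.1 h).1
    have e2 : lam i = lam j := (Prod.ext_iff.1 h).2
    apply htwin i j hij
    · rw [hold i j hij]
      left
      rw [e1]
      exact G.loopless.irrefl _
    · intro l hli hlj
      rw [hold l i hli, hold l j hlj, e1, e2]
  have hnew : ∀ i j, i ≠ j → ((jets G 2)ᶜ.Adj (w i) (w j) ↔ (jets G s)ᶜ.Adj (v i) (v j)) := by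
    intro i j hij
    rw [hold i j hij]
    exact hcomp 2 (w i) (w j) (fun h => hij (hw h))
  obtain ⟨i, j, hij, h3, h4, h5⟩ := h2 m w hw (by
    intro i
    have hne : i ≠ i + 1 := fun h => (hadj i).ne (by rw [← h])
    exact (hnew i (i + 1) hne).2 (hadj i))
  exact hcon i j hij h3 h4 ((hnew i j hij).1 h5)

/-- **Jet graphs and co-chordality.** If `J_2(G)` is co-chordal, then `J_s(G)` is co-chordal for
all `s`. Hence for every `n ≥ 2` there is no graph `G`, in particular no co-chordal graph of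
diameter `2`, such that `J_i(G)` is co-chordal for all `1 ≤ i ≤ n` but `J_{n+1}(G)` is not. -/
theorem result :
    (∀ (V : Type) (G : SimpleGraph V), CoChordal (jets G 2) → ∀ s, CoChordal (jets G s)) ∧
    ∀ n : ℕ, 2 ≤ n → ¬ ∃ (V : Type) (_ : Fintype V) (G : SimpleGraph V),
      CoChordal G ∧ G.Connected ∧ G.diam = 2 ∧
      (∀ i, 1 ≤ i → i ≤ n → CoChordal (jets G i)) ∧ ¬ CoChordal (jets G (n + 1)) := by
  refine ⟨fun V G h s => main G h s, ?_⟩
  rintro n hn ⟨V, _, G, _, _, _, h1, h2⟩
  exact h2 (main G (h1 2 (by norm_num) hn) (n + 1))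

end Pool.Agent.Results.MP_bdbea1_co.JetsCoChordal
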